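import Pool.Agent.NPC.Defs
import Pool.Agent.H911Z.WC.Defs
import Pool.Agent.H911Z.WC.Final

namespace Pool.Agent.Results.MP_c85d9c_lc.NPHard

open Pool.Agent.NPC Pool.Agent.H911Z.WC

/-- Deciding the winner of the Waiter-Client game on a hypergraph given by the explicit list of its
edges is `NP`-hard under polynomial-time many-one reductions. -/
theorem result : NPHardP WaiterClient := hard

end Pool.Agent.Results.MP_c85d9c_lc.NPHard
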